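import Pool.Agent.W606.UB.Stm

/-!
# Docks exist
-/

set_option autoImplicit false

namespace KN

namespace UB

namespace Dk

open Finset Filter Topology
open scoped Classical

theorem U_same {w w' : List Dir} (h : Same (vl w) (vl w')) (hU : U w) : U w' := by
  unfold U KT at *
  rcases hU with h1 | h1
  · exact Or.inl (h.symm.trans h1)
  · exact Or.inr (h.symm.trans h1)

theorem mem_append (l1 l2 : List Dir) (p : Z3) :
    p ∈ path (l1 ++ l2) ↔ p - pos l2 ∈ path l1 ∨ p ∈ path l2 := by
  induction l1 with
  | nil =>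
    simp only [List.nil_append, path, List.mem_singleton]
    constructor
    · intro h
      exact Or.inr h
    · rintro (h | h)
      · rw [sub_eq_zero] at h
        rw [h]
        exact pos_mem_path l2
      · exact h
  | cons d l ih =>
    rw [List.cons_append, path, path, List.mem_cons, List.mem_cons, ih, pos_append]
    have h : p = pos l + pos l2 + vec d ↔ p - pos l2 = pos l + vec d := by
      constructor
      · intro h
        rw [h]
        abel
      · intro h
        rw [eq_add_of_sub_eq h]
        abel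
    rw [h, or_assoc]

theorem mem_rotate' (a c : List Dir) (h0 : pos a + pos c = 0) (p : Z3) :
    p ∈ path (c ++ a) ↔ p + pos c ∈ path (a ++ c) := by
  have h1 : p - pos a = p + pos c := by
    rw [sub_eq_add_neg, neg_eq_of_add_eq_zero_right h0]
  rw [mem_append, mem_append, h1, add_sub_cancel_right, or_comm]

theorem mem_rotate (w : List Dir) (hw : pos w = 0) (k : ℕ) (hk : k ≤ w.length) (p : Z3) :
    p ∈ path (w.rotate k) ↔ p + pos (w.drop k) ∈ path w := by
  have h0 : pos (w.take k) + pos (w.drop k) = 0 := by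
    rw [← pos_append, List.take_append_drop, hw]
  have h1 := mem_rotate' _ _ h0 p
  rw [List.take_append_drop] at h1
  rw [List.rotate_eq_drop_append_take hk]
  exact h1

theorem drop_rotate' (a c : List Dir) (h0 : pos a + pos c = 0) (j : ℕ) (hc : 0 < c.length)
    (hj : j < a.length + c.length) :
    pos ((a ++ c).drop ((a.length + j) % (a.length + c.length))) =
      pos ((c ++ a).drop j) + pos c := by
  rw [List.drop_append, pos_append, List.drop_append, pos_append]
  rcases Nat.lt_or_ge j c.length with h | h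
  · rw [Nat.mod_eq_of_lt (by omega : a.length + j < a.length + c.length)]
    have h1 : a.length + j - a.length = j := by omega
    have h2 : a.drop (a.length + j) = [] := List.drop_eq_nil_of_le (by omega)
    have h3 : j - c.length = 0 := by omega
    rw [h1, h2, h3, List.drop_zero, add_assoc, h0, add_zero]
    simp only [pos, zero_add]
  · have h1 : (a.length + j) % (a.length + c.length) = j - c.length := by
      rw [Nat.mod_eq_sub_mod (by omega), Nat.mod_eq_of_lt (by omega)]
      omega
    have h3 : c.drop j = [] := List.drop_eq_nil_of_le (by omega)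
    have h4 : j - c.length - a.length = 0 := by omega
    rw [h1, h3, h4, List.drop_zero]
    simp only [pos, zero_add]

theorem drop_rotate (w : List Dir) (hw : pos w = 0) (k j : ℕ) (hk : k < w.length)
    (hj : j < w.length) :
    pos (w.drop ((k + j) % w.length)) = pos ((w.rotate k).drop j) + pos (w.drop k) := by
  have h0 : pos (w.take k) + pos (w.drop k) = 0 := by
    rw [← pos_append, List.take_append_drop, hw]
  have hc : (w.drop k).length = w.length - k := List.length_drop
  have ha : (w.take k).length = k := by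
    rw [List.length_take]
    omega
  have h1 := drop_rotate' (w.take k) (w.drop k) h0 j (by omega) (by omega)
  have h2 : k + (w.length - k) = w.length := by omega
  rw [List.take_append_drop, ha, hc, h2] at h1
  rw [List.rotate_eq_drop_append_take hk.le]
  exact h1

theorem near_iff (r : ℕ) (p q : Z3) : near r p q ↔
    (p.1 - q.1 ≤ r ∧ q.1 - p.1 ≤ r) ∧ (p.2.1 - q.2.1 ≤ r ∧ q.2.1 - p.2.1 ≤ r) ∧
      (p.2.2 - q.2.2 ≤ r ∧ q.2.2 - p.2.2 ≤ r) := by
  unfold near
  simp only [abs_le]
  constructor
  · rintro ⟨⟨_, _⟩, ⟨_, _⟩, ⟨_, _⟩⟩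
    refine ⟨⟨?_, ?_⟩, ⟨?_, ?_⟩, ⟨?_, ?_⟩⟩ <;> omega
  · rintro ⟨⟨_, _⟩, ⟨_, _⟩, ⟨_, _⟩⟩
    refine ⟨⟨?_, ?_⟩, ⟨?_, ?_⟩, ⟨?_, ?_⟩⟩ <;> omega

theorem Rp_near {d f : Dir} (h : perp d f) (r : ℕ) (p q : Z3) :
    near r (Rp d f p) (Rp d f q) ↔ near r p q := by
  obtain ⟨p1, p2, p3⟩ := p
  obtain ⟨q1, q2, q3⟩ := q
  rw [near_iff, near_iff]
  cases d <;> cases f <;> first
    | exact absurd rfl h
    | (simp only [Rp, vec, cr, Prod.smul_mk, Prod.mk_add_mk, smul_eq_mul]
       constructor
       · rintro ⟨⟨_, _⟩, ⟨_, _⟩, ⟨_, _⟩⟩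
         refine ⟨⟨?_, ?_⟩, ⟨?_, ?_⟩, ⟨?_, ?_⟩⟩ <;> omega
       · rintro ⟨⟨_, _⟩, ⟨_, _⟩, ⟨_, _⟩⟩
         refine ⟨⟨?_, ?_⟩, ⟨?_, ?_⟩, ⟨?_, ?_⟩⟩ <;> omega)

theorem Rp_dt {d f : Dir} (h : perp d f) (p q : Z3) :
    dt (Rp d f p) (Rp d f q) = dt p q := by
  obtain ⟨p1, p2, p3⟩ := p
  obtain ⟨q1, q2, q3⟩ := q
  cases d <;> cases f <;> first
    | exact absurd rfl h
    | (simp only [Rp, vec, cr, dt, Prod.smul_mk, Prod.mk_add_mk, smul_eq_mul]
       ring)

theorem exists_far (w : List Dir) (hw : SAP w) (hlen : 2198 ≤ w.length) (x : Z3) :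
    ∃ k < w.length, ¬ near 6 x (pos (w.drop k)) := by
  by_contra hcon
  push Not at hcon
  have h1 : ∀ p ∈ path w, near 6 x p := by
    intro p hp
    obtain ⟨i, hi, rfl⟩ := (mem_path_iff w p).1 hp
    rcases eq_or_lt_of_le hi with h | h
    · have h2 : pos (w.drop i) = pos (w.drop 0) := by
        rw [h, List.drop_length, List.drop_zero, hw.2.1]
        rfl
      rw [h2]
      exact hcon 0 (by omega)
    · exact hcon i h
  have h2 : (path w).tail.toFinset ⊆ Finset.Icc (x.1 - 6) (x.1 + 6) ×ˢ
      (Finset.Icc (x.2.1 - 6) (x.2.1 + 6) ×ˢ Finset.Icc (x.2.2 - 6) (x.2.2 + 6)) := by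
    intro p hp
    rw [List.mem_toFinset] at hp
    have h3 := (near_iff _ _ _).1 (h1 p (List.mem_of_mem_tail hp))
    simp only [Nat.cast_ofNat] at h3
    simp only [Finset.mem_product, Finset.mem_Icc]
    omega
  have h3 := Finset.card_le_card h2
  rw [List.toFinset_card_of_nodup hw.2.2, List.length_tail, path_length, Finset.card_product,
    Finset.card_product, Int.card_Icc, Int.card_Icc, Int.card_Icc] at h3
  have h4 : (x.1 + 6 + 1 - (x.1 - 6)).toNat = 13 := by
    have : x.1 + 6 + 1 - (x.1 - 6) = 13 := by ring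
    rw [this]; rfl
  have h5 : (x.2.1 + 6 + 1 - (x.2.1 - 6)).toNat = 13 := by
    have : x.2.1 + 6 + 1 - (x.2.1 - 6) = 13 := by ring
    rw [this]; rfl
  have h6 : (x.2.2 + 6 + 1 - (x.2.2 - 6)).toNat = 13 := by
    have : x.2.2 + 6 + 1 - (x.2.2 - 6) = 13 := by ring
    rw [this]; rfl
  rw [h4, h5, h6] at h3
  omega

/-- the three cases of `Gd` -/
theorem cases_Gd (om l1 l2 A0 B0 : List Dir) (z : Dir) (e0 : Z3)
    (he : e0 + vec z + pos B0 = pos l2 + (0, 0, 1))
    (h : om = l1 ++ .zp :: l2 ∨
    (∃ m, l1 = m ++ [.xm] ∧ om = m ++ .zp :: .xm :: l2) ∨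
    (∃ m, l2 = .xp :: m ∧ om = l1 ++ .xp :: .zp :: m)) :
    ∃ (C S A B : List Dir) (j : ℕ), om.rotate j = C ++ S ∧ j < om.length ∧
      A.length ≤ A0.length + 1 ∧ B.length ≤ B0.length + 1 ∧
      (A0 ++ (l2 ++ l1) ++ B0) ++ [z] = (A ++ S ++ B) ++ [z] ∧
      pos (om.drop j) = e0 + vec z + pos B ∧
      (∀ q ∈ path (l1 ++ .zp :: l2), q ∈ path om ∨ q = pos l2 ∨ q = pos l2 + (0, 0, 1)) ∧
      om.length = l1.length + l2.length + 1 := by
  rcases h with h | ⟨m, hl, h⟩ | ⟨m, hl, h⟩
  · refine ⟨[.zp], l2 ++ l1, A0, B0, l1.length, ?_, ?_, by omega, by omega, rfl, ?_, ?_, ?_⟩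
    · rw [h, List.rotate_append_length_eq]
      simp
    · rw [h]
      simp
    · rw [h, List.drop_left, he]
      rfl
    · intro q hq
      rw [h]
      exact Or.inl hq
    · rw [h]
      simp
      omega
  · refine ⟨[.zp, .xm], l2 ++ m, A0, .xm :: B0, m.length, ?_, ?_, by omega, by simp, ?_, ?_, ?_, ?_⟩
    · rw [h, List.rotate_append_length_eq]
      simp
    · rw [h]
      simp
    · rw [hl]
      simp
    · rw [h, List.drop_left]
      simp only [pos]
      have h1 : e0 + vec z + (pos B0 + vec .xm) = (e0 + vec z + pos B0) + vec .xm := by abel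
      rw [h1, he]
      simp only [vec]
      abel
    · intro q hq
      rw [hl, List.append_assoc, mem_append] at hq
      rw [h]
      rcases hq with hq | hq
      · left
        rw [mem_append]
        left
        have h1 : pos ([Dir.xm] ++ Dir.zp :: l2) = pos (Dir.zp :: Dir.xm :: l2) := by
          simp only [List.singleton_append, pos]
          abel
        rw [← h1]
        exact hq
      · simp only [List.singleton_append, path, List.mem_cons] at hq
        rcases hq with hq | hq | hq
        · left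
          rw [mem_append]
          right
          simp only [path, List.mem_cons]
          left
          rw [hq]
          simp only [pos]
          abel
        · right; right
          rw [hq]
          rfl
        · left
          rw [mem_append]
          right
          simp only [path, List.mem_cons]
          right; right
          exact hq
    · rw [h, hl]
      simp
      omega
  · refine ⟨[.xp, .zp], m ++ l1, A0 ++ [.xp], B0, l1.length, ?_, ?_, by simp, by omega, ?_, ?_, ?_,
      ?_⟩
    · rw [h, List.rotate_append_length_eq]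
      simp
    · rw [h]
      simp
    · rw [hl]
      simp
    · rw [h, List.drop_left, he, hl]
      simp only [pos, vec]
      abel
    · intro q hq
      rw [hl] at hq ⊢
      rw [mem_append] at hq
      rw [h]
      rcases hq with hq | hq
      · left
        rw [mem_append]
        left
        have h1 : pos (Dir.zp :: Dir.xp :: m) = pos (Dir.xp :: Dir.zp :: m) := by
          simp only [pos]
          abel
        rw [← h1]
        exact hq
      · simp only [path, List.mem_cons] at hq
        rcases hq with hq | hq | hq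
        · left
          rw [mem_append]
          right
          simp only [path, List.mem_cons]
          left
          rw [hq]
          simp only [pos]
          abel
        · right; left
          rw [hq]
          rfl
        · left
          rw [mem_append]
          right
          simp only [path, List.mem_cons]
          right; right
          exact hq
    · rw [h, hl]
      simp
      omega

/-- the parts of a rotated Gd -/
theorem gd_cases {T L : ℕ} {w : List Dir} {d f : Dir} {l1 l2 : List Dir}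
    (h : Gd T L w d f l1 l2) : w.map (rt d f) = l1 ++ .zp :: l2 ∨
    (∃ m, l1 = m ++ [.xm] ∧ w.map (rt d f) = m ++ .zp :: .xm :: l2) ∨
    (∃ m, l2 = .xp :: m ∧ w.map (rt d f) = l1 ++ .xp :: .zp :: m) := by
  rcases h.2.2.2 with h | ⟨m, h1, h2, _⟩ | ⟨m, h1, h2, _⟩
  · exact Or.inl h
  · exact Or.inr (Or.inl ⟨m, h1, h2⟩)
  · exact Or.inr (Or.inr ⟨m, h1, h2⟩)

theorem rt_perp {d f : Dir} (h : perp d f) {a b : Dir} (hab : perp a b) :
    perp (rt d f a) (rt d f b) := by
  cases d <;> cases f <;> first
    | exact absurd rfl h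
    | (cases a <;> cases b <;> first
        | exact absurd rfl hab
        | (unfold perp; decide))

theorem vec_rt {d f : Dir} (h : perp d f) (a : Dir) : Rp d f (vec a) = vec (rt d f a) := by
  cases d <;> cases f <;> first
    | exact absurd rfl h
    | (cases a <;> decide)

theorem pos_rep_xm (n : ℕ) : pos (List.replicate n .xm) = (-(n : ℤ), 0, 0) := by
  induction n with
  | zero => rfl
  | succ n ih =>
    rw [List.replicate_succ, pos, ih]
    simp only [vec, Prod.mk_add_mk, add_zero]
    push_cast
    congr 1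
    ring

/-- the maximum norm -/
theorem exists_big (N : Z3) (R : ℕ) (hR : 2000 ≤ R) (h : (R : ℤ) ^ 2 < dt N N) :
    ∃ g : Dir, 700 < dt N (vec g) := by
  by_contra hcon
  push Not at hcon
  obtain ⟨n1, n2, n3⟩ := N
  have a1 := hcon .xp
  have a2 := hcon .xm
  have a3 := hcon .yp
  have a4 := hcon .ym
  have a5 := hcon .zp
  have a6 := hcon .zm
  simp only [dt, vec] at a1 a2 a3 a4 a5 a6 h
  have hR' : (2000 : ℤ) ≤ R := by exact_mod_cast hR
  nlinarith

theorem dock_main (h1 : P_block) (h2 : P_step) (h3 : P_dockS) (h4 : T_rt) (h5 : T_rtc)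
    (h6 : S_words) : P_dock := by
  obtain ⟨v, hvS, hvU, hv⟩ := h1
  refine ⟨30, fun T hT => ⟨2 * (T + 1) + v.length + 3000, 2 * (T + 1) + v.length - 1,
    fun R hR hLL => ?_⟩⟩
  intro w hw hwU hlam x N hC hN
  -- the base point
  obtain ⟨k0, hk0, hfar⟩ := exists_far w hw (by omega) x
  set b : Z3 := pos (w.drop k0) with hb
  set w' := w.rotate k0 with hw'
  have hw'S : SAP w' := ((h6 w hw).2.2 k0).1
  have hw'U : U w' := U_same ((h6 w hw).2.2 k0).2 hwU
  have hlen' : w'.length = w.length := List.length_rotate _ _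
  have hmem : ∀ p : Z3, p ∈ path w' ↔ p + b ∈ path w := mem_rotate w hw.2.1 k0 hk0.le
  have hC' : Cont R {p | p ∈ path w'} (x - b) N := by
    obtain ⟨c1, c2, c3, c4⟩ := hC
    refine ⟨?_, c2, c3, ?_⟩
    · show x - b ∈ path w'
      rw [hmem, sub_add_cancel]
      exact c1
    · intro p hp
      have h7 := c4 (p + b) ((hmem p).1 hp)
      have h8 : p + b - x = p - (x - b) := by abel
      rwa [h8] at h7
  have hfar' : ¬ near 6 (x - b) 0 := by
    intro h7
    apply hfar
    rw [near_iff] at h7 ⊢
    simpa using h7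
  obtain ⟨d, f, l1, l2, hGd, hnear, hmax⟩ := h2 T 9 R hLL w' hw'S (x - b) N hC' hfar'
  have hperp : perp d f := hGd.1
  obtain ⟨⟨d', f', hp', hd', hf', hinv1, hinv2, hinv3, hinv4⟩, hneg, hpath, hadd⟩ := h5 d f hperp
  obtain ⟨_, hneg', hpath', hadd'⟩ := h5 d' f' hp'
  set s : Dir := rt d f .xp with hs
  set z : Dir := rt d f .zp with hz
  have hsz : perp s z := rt_perp hperp (by decide)
  have hsd : s = d := rfl
  have hzf : z = f := rfl
  -- the direction
  have hRN : ∀ q : Z3, dt (Rp d f N) q = dt N (Rp d' f' q) := by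
    intro q
    rw [← Rp_dt hperp N (Rp d' f' q), hinv4]
  have hN1 : (Rp d f N).1 = dt N (vec (rt d' f' .xp)) := by
    have h7 := hRN (vec .xp)
    rw [vec_rt hp'] at h7
    rw [← h7]
    simp [dt, vec]
  have hbig : 0 < (Rp d f N).1 := by
    obtain ⟨g, hg⟩ := exists_big N R hR hC.2.1
    have h7 := hmax g
    omega
  have hsxm : s ≠ .xm := by
    intro h7
    have h8 : dt (Rp d f N) (vec s) = N.1 := by
      rw [hs, ← vec_rt hperp, Rp_dt hperp]
      simp [dt, vec]
    rw [h7] at h8
    simp only [dt, vec] at h8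
    omega
  have hs1 : 0 ≤ dt (1, 0, 0) (vec s) := by
    revert hsxm
    cases s <;> simp [dt, vec]
  obtain ⟨v1, v2, hvv, hvext⟩ := hv s z hsz hsxm
  have hspotU : U (l1 ++ .zp :: l2) := U_same hGd.2.2.1 hw'U
  set A0 : List Dir := v2 ++ List.replicate (T + 1) .xp with hA0
  set B0 : List Dir := List.replicate (T + 1) .xm ++ v1 with hB0
  set e0 : Z3 := pos l2 + ((T : ℤ) + 1, 0, 0) + pos v2 with he0
  obtain ⟨hWS, hWU, hWp⟩ := h3 v v1 v2 s z hvS hvU hsz hsxm hvv hvext T l1 l2 hGd.2.1 hspotU
    A0 B0 _ e0 rfl rfl rfl rfl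
  have hposv : pos v = (0, 0, 1) := by
    have h7 : pos v + vec .zm = 0 := hvS.1.2.1
    have h8 := eq_neg_of_add_eq_zero_left h7
    rw [h8]
    rfl
  have hpe : e0 + vec z + pos B0 = pos l2 + (0, 0, 1) := by
    have h7 : pos v1 + (pos v2 + vec z) = (0, 0, 1) := by
      rw [← hposv, hvv, pos_append]
      rfl
    rw [he0, hB0, pos_append, pos_rep_xm, ← h7]
    have h8 : ((T : ℤ) + 1, (0 : ℤ), (0 : ℤ)) + (-((T + 1 : ℕ) : ℤ), 0, 0) = (0 : Z3) := by
      rw [Prod.mk_add_mk, Prod.mk_add_mk]
      push_cast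
      simp
    calc pos l2 + ((T : ℤ) + 1, 0, 0) + pos v2 + vec z + ((-((T + 1 : ℕ) : ℤ), 0, 0) + pos v1) =
        pos l2 + (pos v1 + (pos v2 + vec z)) +
          (((T : ℤ) + 1, 0, 0) + (-((T + 1 : ℕ) : ℤ), 0, 0)) := by abel
      _ = _ := by rw [h8, add_zero]
  obtain ⟨C0, S0, A1, B1, j, hrot, hj, hAl, hBl, hWeq, hposj, hvert, hlen⟩ :=
    cases_Gd (w'.map (rt d f)) l1 l2 A0 B0 z e0 hpe (gd_cases hGd)
  rw [List.length_map] at hj hlen
  have hmm : ∀ l : List Dir, (l.map (rt d f)).map (rt d' f') = l := by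
    intro l
    rw [List.map_map]
    conv_rhs => rw [← List.map_id l]
    refine List.map_congr_left fun a _ => ?_
    exact hinv1 a
  have hzb : rt d' f' z = .zp := hinv1 .zp
  have hA0l : A0.length = v2.length + (T + 1) := by
    rw [hA0, List.length_append, List.length_replicate]
  have hB0l : B0.length = (T + 1) + v1.length := by
    rw [hB0, List.length_append, List.length_replicate]
  have hvl : v.length = v1.length + v2.length + 1 := by
    rw [hvv, List.length_append, List.length_cons]
    omega
  have hWlen := congrArg List.length hWeq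
  simp only [List.length_append, List.length_singleton] at hWlen
  have hWmap : ((A0 ++ (l2 ++ l1) ++ B0) ++ [z]).map (rt d' f') =
      (A1.map (rt d' f') ++ S0.map (rt d' f') ++ B1.map (rt d' f')) ++ [.zp] := by
    rw [hWeq]
    simp only [List.map_append, List.map_cons, List.map_nil, hzb]
  have hrt := h4 d' f' hp' _ hWS
  rw [hWmap] at hrt
  have hpm := (hpath' ((A0 ++ (l2 ++ l1) ++ B0) ++ [z])).2
  rw [hWmap] at hpm
  have hvecd : vec (rt d' f' .xp) = Rp d' f' (vec .xp) := (vec_rt hp' _).symm
  -- positions near x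
  have hxx : ∀ i : ℤ, x + i • vec (rt d' f' .xp) =
      Rp d' f' (Rp d f (x - b) + (i, 0, 0)) + b := by
    intro i
    rw [hadd', hinv3]
    have h7 : Rp d' f' (i, 0, 0) = i • vec (rt d' f' .xp) := by
      have h8 : rt d' f' .xp = d' := rfl
      rw [h8]
      simp [Rp]
    rw [h7]
    abel
  have hnr : ∀ (r : ℕ) (p q : Z3), near r (Rp d' f' p + b) (Rp d' f' q + b) ↔ near r p q := by
    intro r p q
    rw [← Rp_near hp' r p q, near_iff, near_iff]
    simp
  refine ⟨A1.map (rt d' f'), B1.map (rt d' f'), C0.map (rt d' f'), S0.map (rt d' f'),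
    (k0 + j) % w.length, Rp d' f' e0 + b, rt d' f' .xp, Nat.mod_lt _ (by omega), ?_, ?_, ?_, ?_,
    hrt.1, U_same hrt.2 hWU, ?_, ?_, ?_, ?_⟩
  · rw [List.length_map]
    omega
  · rw [List.length_map]
    omega
  · rw [List.rotate_mod, ← List.rotate_rotate, ← hw', ← List.map_append, ← hrot, List.map_rotate,
      hmm]
  · simp only [List.length_append, List.length_map]
    omega
  · rw [drop_rotate w hw.2.1 k0 j hk0 (by omega), ← hw', ← hb]
    have h7 : w'.drop j = ((w'.map (rt d f)).drop j).map (rt d' f') := by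
      rw [← List.map_drop, hmm]
    have h8 : Rp d' f' (vec z) = (0, 0, 1) := by
      rw [vec_rt hp', hzb]
      rfl
    rw [h7, (hpath' _).1, hposj, hadd', hadd', h8, ← (hpath' B1).1]
    abel
  · intro g
    rw [← hN1]
    exact hmax g
  · rw [hxx, hnr]
    have h7 : pos v2 ∈ path v := by
      rw [hvv, mem_append]
      right
      simp only [path, List.mem_cons]
      right
      exact pos_mem_path v2
    have h8 := hvS.2 _ h7
    rw [near_iff] at hnear ⊢
    rw [he0]
    simp only [Prod.fst_add, Prod.snd_add, abs_le, Nat.cast_ofNat] at h8 hnear ⊢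
    omega
  · intro p hp
    rw [hpm, List.mem_map] at hp
    obtain ⟨p0, hp0, rfl⟩ := hp
    have hpe0 : Rp d' f' p0 + (Rp d' f' e0 + b) = Rp d' f' (p0 + e0) + b := by
      rw [hadd' p0 e0, add_assoc]
    have hp1 : (Rp d' f' p0).1 = dt p0 (vec s) := by
      have h7 : dt (Rp d' f' p0) (vec .xp) = dt p0 (Rp d f (vec .xp)) := by
        rw [← Rp_dt hp' p0 (Rp d f (vec .xp)), hinv3]
      rw [vec_rt hperp] at h7
      rw [← h7]
      simp [dt, vec]
    rw [hpe0, hp1]
    rcases hWp p0 hp0 with hq | ⟨hq1, i, hi0, hi1, hq2⟩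
    · rcases hvert _ hq with hq | hq
      · left
        rw [← hmem]
        have h7 := hpath (w')
        rw [h7.2, List.mem_map] at hq
        obtain ⟨q, hq1, hq2⟩ := hq
        rw [← hq2, hinv3]
        exact hq1
      · right
        have h0v : (0 : Z3) ∈ path v := zero_mem_path v
        have h1v : ((0, 0, 1) : Z3) ∈ path v := by
          rw [← hposv]
          exact pos_mem_path v
        have e0v := hvext _ h0v
        have e1v := hvext _ h1v
        have hT0 : (0 : ℤ) ≤ T := by positivity
        refine ⟨?_, 0, le_rfl, by omega, ?_⟩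
        · have h7 : p0 + e0 - e0 = p0 := by abel
          rcases hq with hq | hq
          · rw [← h7, hq, he0]
            have h8 : dt (pos l2 - (pos l2 + ((T : ℤ) + 1, 0, 0) + pos v2)) (vec s) =
                dt 0 (vec s) - ((T : ℤ) + 1) * dt (1, 0, 0) (vec s) - dt (pos v2) (vec s) := by
              simp only [dt, Prod.fst_sub, Prod.snd_sub, Prod.fst_add, Prod.snd_add,
                Prod.fst_zero, Prod.snd_zero]
              ring
            rw [h8]
            nlinarith
          · rw [← h7, hq, he0]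
            have h8 : dt (pos l2 + (0, 0, 1) - (pos l2 + ((T : ℤ) + 1, 0, 0) + pos v2)) (vec s) =
                dt (0, 0, 1) (vec s) - ((T : ℤ) + 1) * dt (1, 0, 0) (vec s) -
                  dt (pos v2) (vec s) := by
              simp only [dt, Prod.fst_sub, Prod.snd_sub, Prod.fst_add, Prod.snd_add]
              ring
            rw [h8]
            nlinarith
        · rw [hxx, hnr]
          rw [near_iff] at hnear ⊢
          rcases hq with hq | hq
          · rw [hq]
            simp only [Prod.fst_add, Prod.snd_add, Nat.cast_ofNat] at hnear ⊢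
            omega
          · rw [hq]
            simp only [Prod.fst_add, Prod.snd_add, Nat.cast_ofNat] at hnear ⊢
            omega
    · right
      refine ⟨hq1, i, hi0, by push_cast; omega, ?_⟩
      rw [hxx, hnr]
      rw [near_iff] at hnear hq2 ⊢
      simp only [Prod.fst_add, Prod.snd_add, Nat.cast_ofNat] at hnear hq2 ⊢
      omega

end Dk

end UB

end KN
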